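import Pool.Agent.V11266.GreedyPack

/-! # The tree packing conjecture: the smallest `(√3/2) n` trees

For all `n` and all trees `T_i` with `i` edges, the trees `T_1, …, T_s` pack into `K_n` whenever
`s ≤ (√3/2) n - 1/4`.  More generally the trees `T_i`, `i ∈ I`, pack into `K_n` for every set `I` of
sizes such that `∑_{i ∈ I, i ≥ t} i < n (n - t) / 2 + t` for every `t ∈ I`. -/

set_option autoImplicit false

namespace Pool.Agent.Results.MP_de1a09_co.SmallestTrees

open Finset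

/-- The trees `T i` (with `i` edges, so on `i + 1` vertices), `i ∈ I`, pack into `K_n`: they can be
placed injectively on `n` vertices so that no edge of `K_n` is used by two different trees. -/
def Packs (n : ℕ) (I : Finset ℕ) (T : (i : ℕ) → SimpleGraph (Fin (i + 1))) : Prop :=
  ∃ f : (i : ℕ) → Fin (i + 1) → Fin n,
    (∀ i ∈ I, Function.Injective (f i)) ∧
    ∀ i ∈ I, ∀ j ∈ I, i ≠ j → ∀ (a b : Fin (i + 1)) (c d : Fin (j + 1)),
      (T i).Adj a b → (T j).Adj c d → s(f i a, f i b) ≠ s(f j c, f j d)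

theorem general (n : ℕ) (hn : 0 < n) (I : Finset ℕ) (T : (i : ℕ) → SimpleGraph (Fin (i + 1)))
    (hT : ∀ i ∈ I, (T i).IsTree)
    (h : ∀ t ∈ I, 1 ≤ t → 2 * ∑ i ∈ I.filter (fun i => t ≤ i), i < n * (n - t) + 2 * t) :
    Packs n I T := by
  obtain ⟨f, f1, f2⟩ := V11266.GreedyPack.pack_complete n hn I (fun i => i + 1) T hT (by
    intro j hj h2
    have h3 := h j hj (by omega)
    have h4 : I.filter (fun i => j + 1 ≤ i + 1) = I.filter (fun i => j ≤ i) := by
      apply Finset.filter_congr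
      intro i _
      constructor
      · intro h5; omega
      · intro h5; omega
    rw [h4]
    simpa using h3)
  exact ⟨f, f1, f2⟩

theorem sum_Icc_tail (s t : ℕ) (ht : 1 ≤ t) (hts : t ≤ s) :
    2 * ∑ i ∈ Finset.Icc t s, i + t * (t - 1) = s * (s + 1) := by
  induction s, hts using Nat.le_induction with
  | base =>
    obtain ⟨r, rfl⟩ : ∃ r, t = r + 1 := ⟨t - 1, by omega⟩
    simp
    ring
  | succ s hs ih =>
    rw [← Finset.insert_Icc_right_eq_Icc_add_one (by omega), Finset.sum_insert (by simp)]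
    have : (s + 1) * (s + 1 + 1) = s * (s + 1) + 2 * (s + 1) := by ring
    rw [this, ← ih]
    ring

/-- (1) For every `n ≥ 1`, every finite set `I` of positive integers with
`∑_{i ∈ I, i ≥ t} i < n (n - t) / 2 + t` for all `t ∈ I`, and all trees `T_i` with `i` edges
(`i ∈ I`), the trees `T_i`, `i ∈ I`, pack into `K_n`.  (2) In particular, for all `n ≥ 1`, all
`s ≤ (√3/2) n - 1/4` and all trees `T_1, …, T_s` with `e(T_i) = i`, these trees pack
into `K_n`. -/
theorem result :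
    (∀ (n : ℕ) (I : Finset ℕ) (T : (i : ℕ) → SimpleGraph (Fin (i + 1))),
      1 ≤ n → (∀ i ∈ I, 1 ≤ i) → (∀ i ∈ I, (T i).IsTree) →
      (∀ t ∈ I, ((∑ i ∈ I.filter (fun i => t ≤ i), i : ℕ) : ℝ) < n * ((n : ℝ) - t) / 2 + t) →
      Packs n I T) ∧
    (∀ (n s : ℕ) (T : (i : ℕ) → SimpleGraph (Fin (i + 1))),
      1 ≤ n → (s : ℝ) ≤ Real.sqrt 3 / 2 * n - 1 / 4 →
      (∀ i, 1 ≤ i → i ≤ s → (T i).IsTree) →
      Packs n (Finset.Icc 1 s) T) := by
  have main : ∀ (n : ℕ) (I : Finset ℕ) (T : (i : ℕ) → SimpleGraph (Fin (i + 1))),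
      1 ≤ n → (∀ i ∈ I, 1 ≤ i) → (∀ i ∈ I, (T i).IsTree) →
      (∀ t ∈ I, ((∑ i ∈ I.filter (fun i => t ≤ i), i : ℕ) : ℝ) < n * ((n : ℝ) - t) / 2 + t) →
      Packs n I T := by
    intro n I T hn _ hT h
    apply general n (by omega) I T hT
    intro t ht ht1
    have h1 := h t ht
    have h2 : (n : ℝ) - t ≤ ((n - t : ℕ) : ℝ) := by
      by_cases htn : t ≤ n
      · rw [Nat.cast_sub htn]
      · have h3 : n - t = 0 := by omega
        rw [h3]
        push_cast
        have : (n : ℝ) < t := by exact_mod_cast (not_le.1 htn)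
        linarith
    have h3 : (n : ℝ) * ((n : ℝ) - t) ≤ n * ((n - t : ℕ) : ℝ) :=
      mul_le_mul_of_nonneg_left h2 (Nat.cast_nonneg n)
    have h4 : ((2 * ∑ i ∈ I.filter (fun i => t ≤ i), i : ℕ) : ℝ) <
        ((n * (n - t) + 2 * t : ℕ) : ℝ) := by
      push_cast [Nat.cast_sub]
      push_cast at h1 h3
      linarith
    exact_mod_cast h4
  refine ⟨main, ?_⟩
  intro n s T hn hs hT
  apply main n (Finset.Icc 1 s) T hn
  · intro i hi; exact (Finset.mem_Icc.1 hi).1
  · intro i hi; exact hT i (Finset.mem_Icc.1 hi).1 (Finset.mem_Icc.1 hi).2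
  · intro t ht
    rw [Finset.mem_Icc] at ht
    have h1 : (Finset.Icc 1 s).filter (fun i => t ≤ i) = Finset.Icc t s := by
      ext i
      simp only [Finset.mem_filter, Finset.mem_Icc]
      omega
    rw [h1]
    have h2 := sum_Icc_tail s t ht.1 ht.2
    have h3 : (2 : ℝ) * ((∑ i ∈ Finset.Icc t s, i : ℕ) : ℝ) + t * ((t : ℝ) - 1) = s * (s + 1) := by
      have h4 : ((2 * ∑ i ∈ Finset.Icc t s, i + t * (t - 1) : ℕ) : ℝ) =
          ((s * (s + 1) : ℕ) : ℝ) := by rw [h2]
      push_cast [Nat.cast_sub ht.1] at h4 ⊢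
      linarith
    have hq := Real.sq_sqrt (show (0 : ℝ) ≤ 3 by norm_num)
    have hq0 := Real.sqrt_nonneg (3 : ℝ)
    obtain ⟨q, hqdef⟩ : ∃ q, q = Real.sqrt 3 := ⟨_, rfl⟩
    rw [← hqdef] at hs hq hq0
    have hq1 : q < 1.7321 := by nlinarith
    have hq2 : 1.732 < q := by nlinarith
    have hn' : (1 : ℝ) ≤ n := by exact_mod_cast hn
    have hs0 : (0 : ℝ) ≤ s := Nat.cast_nonneg s
    have h5 : (s : ℝ) * (s + 1) < (3 * (n : ℝ) ^ 2 + 2 * n - 1) / 4 := by
      have h6 : (s : ℝ) * (s + 1) ≤ (q / 2 * n - 1 / 4) * (q / 2 * n - 1 / 4 + 1) := by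
        apply mul_le_mul hs (by linarith) (by linarith) (by linarith)
      have h7 : (q / 2 * n - 1 / 4) * (q / 2 * n - 1 / 4 + 1) =
          q ^ 2 * n ^ 2 / 4 + q * n / 4 - 3 / 16 := by ring
      rw [h7, hq] at h6
      nlinarith
    nlinarith [sq_nonneg (2 * (t : ℝ) - n + 1)]

end Pool.Agent.Results.MP_de1a09_co.SmallestTrees
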